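import Pool.Agent.Lib_MP_294c13_lc.Main

/-!
MP_294c13_lc: it is consistent with ZFC that `add(𝔛, 𝔇) < cov(ℳ)`.

There is a countable model of ZFC in which the inequality `add(𝔛, 𝔇) < cov(ℳ)` holds. No
hypothesis is assumed. The model is obtained by forcing with a Hechler-type poset over the
index set `ω₁ × ω₂`.
-/

namespace Pool.Agent.Results.MP_294c13_lc.Consistency

open Pool.Agent.LibMA Pool.Agent.Forcing Pool.Agent.Inner

theorem result : ∃ (M : Type 1) (E : M → M → Prop), Countable M ∧ ModelsZFC E ∧
    ∃ w, IsOmega E w ∧ AddLtCov E w :=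
  exists_model

end Pool.Agent.Results.MP_294c13_lc.Consistency
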